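import Pool.Agent.R12.DM11

set_option autoImplicit false

namespace Pool.Agent.Results.MP_046423_co.OddRegular

open scoped Classical in
/-- `G` is distance magic: some bijection `f` from the vertices onto `{1, ..., n}`, where `n` is the
number of vertices, has the same sum over the neighbours of every vertex -/
def DistanceMagic {V : Type} [Fintype V] (G : SimpleGraph V) : Prop :=
  ∃ (f : V → ℕ) (k : ℕ), Set.BijOn f Set.univ (Set.Icc 1 (Fintype.card V)) ∧
    ∀ v, ∑ u with G.Adj v u, f u = k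

/-- `G` is regular of degree `r` -/
def Regular {V : Type} (G : SimpleGraph V) (r : ℕ) : Prop :=
  ∀ v, (G.neighborSet v).ncard = r

theorem result (n r : ℕ) (hn : Odd n) (hr : Even r) :
    (∃ (V : Type) (_ : Fintype V) (G : SimpleGraph V),
      Fintype.card V = n ∧ Regular G r ∧ DistanceMagic G) ↔
    (r = 0 ∨ (r + 3 = n ∧ 3 ∣ n ∧ 9 ≤ n) ∨
      (r + 5 ≤ n ∧ (10 ≤ r ∨ (r = 8 ∧ 15 ≤ n) ∨ (r = 6 ∧ 13 ≤ n) ∨ (r = 4 ∧ 17 ≤ n)))) := by
  obtain ⟨N, rfl⟩ := hn
  have hr2 : r % 2 = 0 := Nat.even_iff.1 hr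
  constructor
  · rintro ⟨V, _, G, hc, hd, f, k, hf, hk⟩
    rw [hc] at hf
    obtain ⟨G', hG'⟩ := R12.DM.to_zg G N r k hc hd f hf hk
    exact R12.DM.necess N r hr2 G' hG'
  · intro h
    obtain ⟨G', hG'⟩ := R12.DM.exist_all N r hr2 h
    obtain ⟨G, h1, h2⟩ := R12.DM.of_zg N r G' hG'
    refine ⟨Fin (2 * N + 1), inferInstance, G, Fintype.card_fin _, h1,
      fun i => (i:ℕ) + 1, r * (N + 1), ?_, h2⟩
    rw [Fintype.card_fin]
    refine ⟨fun i _ => ?_, fun i _ j _ hij => ?_, fun x hx => ?_⟩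
    · have := i.2
      exact ⟨by simp only; omega, by simp only; omega⟩
    · simp only at hij; exact Fin.ext (by omega)
    · rw [Set.mem_Icc] at hx
      exact ⟨⟨x - 1, by omega⟩, Set.mem_univ _, by simp only; omega⟩

end Pool.Agent.Results.MP_046423_co.OddRegular
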